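import Pool.Agent.Helper65.Gen3.Goals
import Mathlib.LinearAlgebra.Lagrange

/-!
# Project Gen3, packet G3-IND
-/

namespace Pool.Agent.Helper19.Gen3

open Pool.Agent.Helper65.LinSpace Pool.Agent.Helper65.Gen3 Finset

/-- sums over the values of a surjective homomorphism -/
theorem sum_hom {A B : Type*} [AddGroup A] [AddGroup B] [Fintype A] [Fintype B] [DecidableEq B]
    (φ : A →+ B) (hφ : Function.Surjective φ) (g : B → ℤ) :
    (Fintype.card B : ℤ) * ∑ a, g (φ a) = Fintype.card A * ∑ b, g b := by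
  classical
  have hN : ∀ b, (univ.filter fun a => φ a = b).card = (univ.filter fun a => φ a = 0).card := by
    intro b
    obtain ⟨a₀, rfl⟩ := hφ b
    refine card_bij (fun a _ => a - a₀) ?_ ?_ ?_
    · intro a ha
      rw [mem_filter] at ha ⊢
      exact ⟨mem_univ _, by rw [map_sub, ha.2, sub_self]⟩
    · intro a _ a' _ h
      exact sub_left_injective h
    · intro a ha
      rw [mem_filter] at ha
      exact ⟨a + a₀, by rw [mem_filter]; exact ⟨mem_univ _, by rw [map_add, ha.2, zero_add]⟩,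
        by simp⟩
  set N := (univ.filter fun a => φ a = 0).card with hNd
  have h1 : ∑ a, g (φ a) = N * ∑ b, g b := by
    rw [← sum_fiberwise_of_maps_to (s := univ) (t := univ) (g := φ) fun _ _ => mem_univ _, mul_sum]
    refine sum_congr rfl fun b _ => ?_
    rw [sum_congr rfl (g := fun _ => g b) fun a ha => by rw [(mem_filter.1 ha).2], sum_const, hN b,
      nsmul_eq_mul]
  have h2 : (Fintype.card A : ℤ) = Fintype.card B * N := by
    have h3 : Fintype.card A = ∑ b : B, (univ.filter fun a => φ a = b).card := by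
      rw [← card_univ]
      exact card_eq_sum_card_fiberwise fun _ _ => mem_univ _
    rw [h3, sum_congr rfl fun b _ => hN b, sum_const, card_univ]
    push_cast
    simp
  rw [h1, h2]
  ring

theorem hs_cast (p K s z : ℕ) : (hs p K s z : ZMod p) =
    ∑ i ∈ range K, (dig p s i : ZMod p) * (z : ZMod p) ^ (K - 1 - i) := by
  induction K with
  | zero => simp [hs]
  | succ K ih =>
    have h1 : hs p (K + 1) s z = (hs p K s z * z + dig p s K) % p := rfl
    rw [h1, ZMod.natCast_mod, Nat.cast_add, Nat.cast_mul, ih, sum_range_succ, sum_mul]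
    congr 1
    · refine sum_congr rfl fun i hi => ?_
      rw [mem_range] at hi
      rw [mul_assoc, ← pow_succ]
      congr 2
      omega
    · simp

theorem hs_lt {p K : ℕ} (hp : 0 < p) (hK : 0 < K) (s z : ℕ) : hs p K s z < p := by
  obtain ⟨K, rfl⟩ : ∃ k, K = k + 1 := ⟨K - 1, by omega⟩
  exact Nat.mod_lt _ hp

theorem sum_sign {p : ℕ} (hp : p.Prime) (h2 : 2 < p) : ∑ v ∈ range p, (-1 : ℤ) ^ v = 1 := by
  obtain ⟨k, rfl⟩ := hp.odd_of_ne_two (by omega)
  have : ∀ k : ℕ, ∑ v ∈ range (2 * k + 1), (-1 : ℤ) ^ v = 1 := by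
    intro k
    induction k with
    | zero => simp
    | succ k ih =>
      rw [show 2 * (k + 1) + 1 = 2 * k + 1 + 1 + 1 by ring, sum_range_succ, sum_range_succ, ih]
      rw [pow_succ, pow_mul]
      simp [pow_add, pow_mul]
  exact this k

/-- Packet G3-IND. -/
theorem ind : IND_stmt := by
  intro p K hp h2 T hT hTK
  classical
  haveI : Fact p.Prime := ⟨hp⟩
  rcases Nat.eq_zero_or_pos K with hK | hK
  · subst hK
    have hT0 : T = ∅ := card_eq_zero.1 (by omega)
    subst hT0
    simp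
  -- the places
  have hinj : Set.InjOn (fun z : ℕ => (z : ZMod p)) T := by
    intro x hx y hy h
    have hx' := mem_range.1 (hT hx)
    have hy' := mem_range.1 (hT hy)
    have h3 := (ZMod.natCast_eq_natCast_iff' x y p).1 h
    rwa [Nat.mod_eq_of_lt hx', Nat.mod_eq_of_lt hy'] at h3
  -- evaluation
  let φ : (Fin K → ZMod p) →+ (T → ZMod p) :=
    { toFun := fun c z => ∑ i : Fin K, c i * ((z : ℕ) : ZMod p) ^ (K - 1 - (i : ℕ))
      map_zero' := by funext z; simp
      map_add' := fun c c' => by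
        funext z
        simp only [Pi.add_apply, add_mul, sum_add_distrib] }
  have hφ : Function.Surjective φ := by
    intro v
    let r : ℕ → ZMod p := fun z => if h : z ∈ T then v ⟨z, h⟩ else 0
    let P := Lagrange.interpolate T (fun z : ℕ => (z : ZMod p)) r
    have hdeg : P.natDegree < K := by
      have h3 : P.degree < (T.card : WithBot ℕ) := Lagrange.degree_interpolate_lt r hinj
      have h4 : P.degree < (K : WithBot ℕ) := lt_of_lt_of_le h3 (by exact_mod_cast hTK)
      by_cases hP : P = 0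
      · rw [hP]
        simpa using hK
      · exact (Polynomial.natDegree_lt_iff_degree_lt hP).2 h4
    refine ⟨fun i => P.coeff (K - 1 - (i : ℕ)), ?_⟩
    funext z
    have h5 : P.eval ((z : ℕ) : ZMod p) = v z := by
      have h6 := Lagrange.eval_interpolate_at_node r hinj z.2
      rw [h6]
      simp only [r]
      rw [dif_pos z.2]
    rw [← h5, Polynomial.eval_eq_sum_range' hdeg]
    show ∑ i : Fin K, P.coeff (K - 1 - (i : ℕ)) * ((z : ℕ) : ZMod p) ^ (K - 1 - (i : ℕ)) = _
    rw [Fin.sum_univ_eq_sum_range (fun i => P.coeff (K - 1 - i) *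
      ((z : ℕ) : ZMod p) ^ (K - 1 - i)) K]
    exact sum_range_reflect (fun i => P.coeff i * ((z : ℕ) : ZMod p) ^ i) K
  -- characters
  let χ : ZMod p → ℤ := fun v => (-1) ^ v.val
  let eZ : Fin p ≃ ZMod p := Equiv.ofBijective (fun x => ((x : ℕ) : ZMod p)) (by
    rw [Fintype.bijective_iff_injective_and_card]
    refine ⟨fun x y h => ?_, by rw [Fintype.card_fin, ZMod.card]⟩
    have h3 := (ZMod.natCast_eq_natCast_iff' (x : ℕ) y p).1 h
    rw [Nat.mod_eq_of_lt x.2, Nat.mod_eq_of_lt y.2] at h3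
    exact Fin.ext h3)
  let E : Fin (p ^ K) ≃ (Fin K → ZMod p) :=
    finFunctionFinEquiv.symm.trans (Equiv.arrowCongr (Equiv.refl _) eZ)
  have hE : ∀ s i, E s i = (dig p s i : ZMod p) := fun s i => rfl
  have hχ : ∑ v : ZMod p, χ v = 1 := by
    rw [← Equiv.sum_comp eZ]
    have h3 : ∀ x : Fin p, χ (eZ x) = (-1) ^ (x : ℕ) := by
      intro x
      show (-1 : ℤ) ^ (((x : ℕ) : ZMod p)).val = _
      rw [ZMod.val_natCast, Nat.mod_eq_of_lt x.2]
    rw [sum_congr rfl fun x _ => h3 x, Fin.sum_univ_eq_sum_range (fun x => (-1 : ℤ) ^ x) p]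
    exact sum_sign hp h2
  have key : ∀ s : Fin (p ^ K), ∏ z ∈ T, (-1 : ℤ) ^ hs p K s z =
      ∏ z : T, χ (φ (E s) z) := by
    intro s
    rw [← prod_coe_sort]
    refine prod_congr rfl fun z _ => ?_
    have h3 : φ (E s) z = (hs p K s z : ZMod p) := by
      rw [hs_cast, ← Fin.sum_univ_eq_sum_range (fun i => (dig p s i : ZMod p) *
        ((z : ℕ) : ZMod p) ^ (K - 1 - i)) K]
      rfl
    rw [h3]
    show _ = (-1 : ℤ) ^ ((hs p K s z : ZMod p)).val
    rw [ZMod.val_natCast, Nat.mod_eq_of_lt (hs_lt hp.pos hK _ _)]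
  have h3 : ∑ s ∈ range (p ^ K), ∏ z ∈ T, (-1 : ℤ) ^ hs p K s z =
      ∑ c : Fin K → ZMod p, ∏ z : T, χ (φ c z) := by
    rw [← Fin.sum_univ_eq_sum_range (fun s => ∏ z ∈ T, (-1 : ℤ) ^ hs p K s z) (p ^ K),
      sum_congr rfl fun s _ => key s]
    exact Equiv.sum_comp E fun c => ∏ z : T, χ (φ c z)
  have h4 := sum_hom φ hφ fun v => ∏ z : T, χ (v z)
  have h5 : ∑ v : T → ZMod p, ∏ z : T, χ (v z) = 1 := by
    have h6 := (Finset.prod_univ_sum (fun _ : T => (univ : Finset (ZMod p)))
      (fun _ v => χ v)).symm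
    rw [Fintype.piFinset_univ] at h6
    rw [h6, hχ, prod_const_one]
  rw [h5, mul_one, Fintype.card_fun, Fintype.card_fun, ZMod.card, Fintype.card_coe,
    Fintype.card_fin] at h4
  rw [h3]
  have h7 : (p : ℤ) ^ K = p ^ T.card * p ^ (K - T.card) := by
    rw [← pow_add]
    congr 1
    omega
  push_cast at h4
  rw [h7] at h4
  have h8 : (p : ℤ) ^ T.card ≠ 0 := pow_ne_zero _ (by exact_mod_cast hp.ne_zero)
  exact mul_left_cancel₀ h8 h4

end Pool.Agent.Helper19.Gen3
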